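import Pool.Agent.H30.PrzC

set_option autoImplicit false

namespace Pool.Agent.Results.MP_60be70_gt.Powers

open Pool.Agent.H30.Prz Topology

lemma cemb (Y : Type) [TopologicalSpace Y] [T2Space Y] {a b : ℕ} (h0 : 0 < a) (h : a ≤ b) :
    ∃ f : (Fin a → Y) → Fin b → Y, IsClosedEmbedding f := by
  refine ⟨fun x i => x (if h : i.1 < a then ⟨i, h⟩ else ⟨0, h0⟩),
    Function.LeftInverse.isClosedEmbedding (f := fun y j => y (Fin.castLE h j)) (fun x => ?_)
      (by fun_prop) (by fun_prop)⟩
  funext j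
  simp

lemma lind_para (Y : Type) [TopologicalSpace Y] [RegularSpace Y] [LindelofSpace Y] :
    ParacompactSpace Y :=
  para_of_cls (fun _ => Set.univ) (fun _ => trivial) (fun _ => isOpen_univ)
    (fun _ => isLindelof_univ) fun _ _ _ => rfl

lemma main {k m : ℕ} (hk : 0 < k) (hm : m = 0 ∨ 2 ≤ m ∧ k ≤ m) :
    ∃ (X : Type) (_ : TopologicalSpace X), T3Space X ∧ ∀ n : ℕ,
      (ParacompactSpace (Fin n → X) ↔ m = 0 ∨ n < m) ∧ (LindelofSpace (Fin n → X) ↔ n < k) := by
  obtain ⟨I, p, B, K, M, h⟩ := exists_sys k m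
  have := h.t3
  refine ⟨Sp p B, inferInstance, this, fun n => ⟨⟨fun H => by_contra fun hc => ?_, h.para⟩,
    fun H => by_contra fun hc => ?_, fun hn => h.lind (by omega) hn⟩⟩
  · obtain ⟨f, hf⟩ := cemb (Sp p B) (a := m) (b := n) (by omega) (by omega)
    have := hf.paracompactSpace
    exact h.not_normal (by omega) inferInstance
  · obtain ⟨f, hf⟩ := cemb (Sp p B) (a := k) (b := n) hk (by omega)
    exact h.not_lind hk.ne' hf.LindelofSpace

/-- For all `1 ≤ k ≤ m ≤ ω` there is a regular Hausdorff space whose `n`-th power is paracompact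
exactly when `n < m` and Lindelöf exactly when `n < k`. -/
theorem result (k m : ℕ∞) (hk : 1 ≤ k) (hkm : k ≤ m) :
    ∃ (X : Type) (_ : TopologicalSpace X), T3Space X ∧ ∀ n : ℕ, 0 < n →
      (ParacompactSpace (Fin n → X) ↔ (n : ℕ∞) < m) ∧ (LindelofSpace (Fin n → X) ↔ (n : ℕ∞) < k) := by
  induction k using ENat.recTopCoe with
  | top =>
    rw [top_le_iff.1 hkm]
    exact ⟨Unit, inferInstance, inferInstance, fun n _ =>
      ⟨iff_of_true inferInstance (ENat.coe_lt_top n), iff_of_true inferInstance (ENat.coe_lt_top n)⟩⟩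
  | coe k =>
    have hk' : 0 < k := by exact_mod_cast hk
    induction m using ENat.recTopCoe with
    | top =>
      obtain ⟨X, _, h1, h2⟩ := main hk' (Or.inl rfl)
      exact ⟨X, inferInstance, h1, fun n _ => ⟨iff_of_true ((h2 n).1.2 (Or.inl rfl)) (ENat.coe_lt_top n),
        by rw [Nat.cast_lt]; exact (h2 n).2⟩⟩
    | coe m =>
      have hkm' : k ≤ m := by exact_mod_cast hkm
      simp only [Nat.cast_lt]
      by_cases hm : 2 ≤ m
      · obtain ⟨X, _, h1, h2⟩ := main hk' (Or.inr ⟨hm, hkm'⟩)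
        exact ⟨X, inferInstance, h1, fun n _ => ⟨(h2 n).1.trans (by omega), (h2 n).2⟩⟩
      · obtain ⟨X, _, h1, h2⟩ := main (k := 1) (m := 2) one_pos (Or.inr ⟨le_rfl, one_le_two⟩)
        have key : ∀ n, 0 < n → ¬ ParacompactSpace (Fin n → Fin 2 → X) := fun n hn H => by
          obtain ⟨f, hf⟩ := cemb (Fin 2 → X) one_pos hn
          have h3 := hf.paracompactSpace
          have h4 := (h2 2).1.1 ((Homeomorph.funUnique (Fin 1) _).paracompactSpace_iff.1 h3)
          omega
        exact ⟨Fin 2 → X, inferInstance, inferInstance, fun n hn =>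
          ⟨iff_of_false (key n hn) (by omega),
            iff_of_false (fun _ => key n hn (lind_para _)) (by omega)⟩⟩

end Pool.Agent.Results.MP_60be70_gt.Powers
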